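import Mathlib

/-!
# Ax's lemma over `ℚ_p`

`ax_approx`: if `α` is algebraic over `ℚ_p` and all conjugates of `α` over the intermediate field
`E` are at distance at most `δ` from `α`, then there is an element of `E` at distance at most
`p ^ p δ` from `α`.
-/

set_option autoImplicit false

open Polynomial Finset

namespace Pool.Agent.Helper35K9.Ax

/-- `C(p^k d, p^k) ≡ d` modulo `p` -/
theorem choose_pow_mul (p : ℕ) [hp : Fact p.Prime] (k d : ℕ) :
    Nat.choose (p ^ k * d) (p ^ k) ≡ d [MOD p] := by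
  induction k with
  | zero => simp; rfl
  | succ k ih =>
    have h := Choose.choose_modEq_choose_mod_mul_choose_div_nat (n := p ^ (k + 1) * d)
      (k := p ^ (k + 1)) (p := p)
    have e1 : p ^ (k + 1) * d = p * (p ^ k * d) := by ring
    have e2 : p ^ (k + 1) = p * p ^ k := by ring
    rw [e1, e2, Nat.mul_mod_right, Nat.mul_mod_right, Nat.mul_div_cancel_left _ hp.out.pos,
      Nat.mul_div_cancel_left _ hp.out.pos, Nat.choose_self, one_mul] at h
    rw [e1, e2]
    exact h.trans ih

/-- coefficients of `∏ (X + x_i)` -/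
theorem coeff_prod_le {L : Type*} [NormedField L] [IsUltrametricDist L] (δ : ℝ) (hδ : 0 ≤ δ)
    (s : Multiset L) : (∀ x ∈ s, ‖x‖ ≤ δ) → ∀ j, j ≤ s.card →
    ‖((s.map fun x => (X + C x : L[X])).prod).coeff j‖ ≤ δ ^ (s.card - j) := by
  induction s using Multiset.induction_on with
  | empty =>
    intro _ j hj
    have : j = 0 := by simpa using hj
    subst this
    simp
  | cons a s ih =>
    intro h j hj
    have ha : ‖a‖ ≤ δ := h a (Multiset.mem_cons_self a s)
    have hs : ∀ x ∈ s, ‖x‖ ≤ δ := fun x hx => h x (Multiset.mem_cons_of_mem hx)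
    have ih' := ih hs
    rw [Multiset.map_cons, Multiset.prod_cons, Multiset.card_cons]
    rw [Multiset.card_cons] at hj
    set R := (s.map fun x => (X + C x : L[X])).prod with hR
    have hdeg : R.natDegree ≤ s.card := by
      rw [hR]
      refine (natDegree_multiset_prod_le _).trans ?_
      rw [Multiset.map_map]
      have : (s.map (natDegree ∘ fun x => (X + C x : L[X]))) = s.map (fun _ => 1) := by
        refine Multiset.map_congr rfl fun x _ => ?_
        simp
      rw [this]
      simp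
    have hA : ∀ j, j ≤ s.card + 1 → ‖a * R.coeff j‖ ≤ δ ^ (s.card + 1 - j) := by
      intro j hj
      rcases Nat.lt_or_ge s.card j with h1 | h1
      · rw [coeff_eq_zero_of_natDegree_lt (by omega)]
        simp only [mul_zero, norm_zero]
        positivity
      · rw [norm_mul]
        calc ‖a‖ * ‖R.coeff j‖ ≤ δ * δ ^ (s.card - j) :=
              mul_le_mul ha (ih' j h1) (norm_nonneg _) hδ
          _ = δ ^ (s.card + 1 - j) := by
            rw [← pow_succ']
            congr 1
            omega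
    rw [add_mul, coeff_add, coeff_C_mul]
    refine (IsUltrametricDist.norm_add_le_max _ _).trans (max_le ?_ (hA j hj))
    cases j with
    | zero =>
      simp only [coeff_X_mul_zero, norm_zero]
      positivity
    | succ j =>
      rw [coeff_X_mul]
      refine (ih' j (by omega)).trans (le_of_eq ?_)
      congr 1
      omega

/-- a root of a Hasse derivative near the roots of the polynomial -/
theorem exists_root {L : Type*} [NormedField L] [IsUltrametricDist L] [IsAlgClosed L]
    (δ : ℝ) (hδ : 0 ≤ δ) (α : L) (P : L[X]) (hP : P.Monic)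
    (hroots : ∀ x ∈ P.roots, ‖x - α‖ ≤ δ) (q : ℕ) (hq : q < P.natDegree)
    (hC : (Nat.choose P.natDegree q : L) ≠ 0) :
    ∃ β, (hasseDeriv q P).eval β = 0 ∧
      ‖(Nat.choose P.natDegree q : L)‖ * ‖β - α‖ ^ (P.natDegree - q) ≤
        δ ^ (P.natDegree - q) := by
  classical
  set n := P.natDegree with hn
  set H := hasseDeriv q P with hH
  have hsplit : P.Splits := IsAlgClosed.splits P
  have hcard : P.roots.card = n := by
    rw [hn]
    exact (splits_iff_card_roots.1 hsplit)
  have hPprod : P = (P.roots.map fun x => (X - C x : L[X])).prod := by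
    conv_lhs => rw [hsplit.eq_prod_roots]
    rw [hP.leadingCoeff, C_1, one_mul]
  have htay : taylor α P = ((P.roots.map fun x => α - x).map fun x => (X + C x : L[X])).prod := by
    conv_lhs => rw [hPprod]
    rw [Multiset.map_map, ← taylorAlgHom_apply, map_multiset_prod, Multiset.map_map]
    congr 1
    refine Multiset.map_congr rfl fun x _ => ?_
    simp only [Function.comp, taylorAlgHom_apply, map_sub, taylor_X, taylor_C]
    ring
  have hval : ‖H.eval α‖ ≤ δ ^ (n - q) := by
    rw [hH, ← taylor_coeff, htay]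
    have := coeff_prod_le δ hδ (P.roots.map fun x => α - x) (by
      intro x hx
      obtain ⟨y, hy, rfl⟩ := Multiset.mem_map.1 hx
      rw [norm_sub_rev]
      exact hroots y hy) q (by rw [Multiset.card_map, hcard]; exact hq.le)
    rwa [Multiset.card_map, hcard] at this
  -- the degree and the leading coefficient of `H`
  have hHc : H.coeff (n - q) = (Nat.choose n q : L) := by
    rw [hH, hasseDeriv_coeff, Nat.sub_add_cancel hq.le, hn, coeff_natDegree, hP.leadingCoeff,
      mul_one]
  have hHdeg : H.natDegree = n - q := by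
    refine le_antisymm (natDegree_hasseDeriv_le P q) ?_
    exact le_natDegree_of_ne_zero (by rw [hHc]; exact hC)
  have hHlc : H.leadingCoeff = (Nat.choose n q : L) := by
    rw [leadingCoeff, hHdeg, hHc]
  have hHsplit : H.Splits := IsAlgClosed.splits H
  have hHcard : H.roots.card = n - q := by
    rw [splits_iff_card_roots.1 hHsplit, hHdeg]
  have hHprod : H = C (Nat.choose n q : L) * (H.roots.map fun x => (X - C x : L[X])).prod := by
    conv_lhs => rw [hHsplit.eq_prod_roots]
    rw [hHlc]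
  have hev : H.eval α = (Nat.choose n q : L) * (H.roots.map fun x => (α - x)).prod := by
    conv_lhs => rw [hHprod]
    rw [eval_mul, eval_C, eval_multiset_prod, Multiset.map_map]
    congr 2
    refine Multiset.map_congr rfl fun x _ => ?_
    simp
  -- the root closest to `α`
  have hne : (H.roots.toFinset).Nonempty := by
    rw [Finset.nonempty_iff_ne_empty]
    intro h
    rw [Multiset.toFinset_eq_empty] at h
    rw [h, Multiset.card_zero] at hHcard
    omega
  obtain ⟨β, hβ, hmin⟩ := Finset.exists_min_image H.roots.toFinset (fun x => ‖x - α‖) hne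
  have hβr : β ∈ H.roots := Multiset.mem_toFinset.1 hβ
  refine ⟨β, (mem_roots'.1 hβr).2, ?_⟩
  have hprod : ∀ s : Multiset L, (∀ x ∈ s, ‖β - α‖ ≤ ‖x - α‖) →
      ‖β - α‖ ^ s.card ≤ ‖(s.map fun x => (α - x)).prod‖ := by
    intro s
    induction s using Multiset.induction_on with
    | empty => intro _; simp
    | cons a s ih =>
      intro h
      rw [Multiset.map_cons, Multiset.prod_cons, Multiset.card_cons, norm_mul, pow_succ']
      refine mul_le_mul ?_ (ih fun x hx => h x (Multiset.mem_cons_of_mem hx)) (by positivity)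
        (norm_nonneg _)
      rw [norm_sub_rev α a]
      exact h a (Multiset.mem_cons_self a s)
  have h1 := hprod H.roots fun x hx => hmin x (Multiset.mem_toFinset.2 hx)
  rw [hHcard] at h1
  calc ‖(Nat.choose n q : L)‖ * ‖β - α‖ ^ (n - q)
      ≤ ‖(Nat.choose n q : L)‖ * ‖(H.roots.map fun x => (α - x)).prod‖ :=
        mul_le_mul_of_nonneg_left h1 (norm_nonneg _)
    _ = ‖H.eval α‖ := by rw [hev, norm_mul]
    _ ≤ δ ^ (n - q) := hval


variable (p : ℕ) [hp : Fact p.Prime]

/-- automorphisms over an intermediate field are isometries -/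
theorem norm_aut (E : IntermediateField ℚ_[p] (PadicAlgCl p))
    (σ : PadicAlgCl p ≃ₐ[E] PadicAlgCl p) (x : PadicAlgCl p) : ‖σ x‖ = ‖x‖ := by
  have h := spectralNorm_eq_of_equiv (K := ℚ_[p]) (L := PadicAlgCl p)
    (σ.restrictScalars ℚ_[p]) x
  rw [← PadicAlgCl.spectralNorm_eq, ← PadicAlgCl.spectralNorm_eq, h]
  rfl

theorem norm_natCast (m : ℕ) : ‖(m : PadicAlgCl p)‖ = ‖(m : ℚ_[p])‖ := by
  rw [← PadicAlgCl.norm_extends p (m : ℚ_[p])]
  simp

/-- the choice of `q` -/
theorem exists_q (n : ℕ) (hn : 2 ≤ n) : ∃ q, 0 < q ∧ q < n ∧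
    (Nat.choose n q : PadicAlgCl p) ≠ 0 ∧
    (‖(Nat.choose n q : PadicAlgCl p)‖ = 1 ∨
      ((∃ j, n = p ^ (j + 1) ∧ q = p ^ j) ∧
        (p : ℝ)⁻¹ ≤ ‖(Nat.choose n q : PadicAlgCl p)‖)) := by
  have hp2 : 2 ≤ p := hp.out.two_le
  obtain ⟨k, d, hd, hnd⟩ := Nat.exists_eq_pow_mul_and_not_dvd (n := n) (by omega) p
    (by omega)
  have hpk : 0 < p ^ k := Nat.pow_pos (by omega)
  have hne : ∀ q, q ≤ n → (Nat.choose n q : PadicAlgCl p) ≠ 0 := by
    intro q hq
    exact_mod_cast (Nat.choose_pos hq).ne'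
  rcases Nat.lt_or_ge d 2 with h2 | h2
  · -- `n = p ^ k`
    have hd1 : d = 1 := by
      rcases Nat.eq_zero_or_pos d with h0 | h0
      · rw [h0] at hd; simp at hd
      · omega
    subst hd1
    rw [mul_one] at hnd
    have hk : k ≠ 0 := by
      rintro rfl
      simp at hnd
      omega
    obtain ⟨j, rfl⟩ := Nat.exists_eq_succ_of_ne_zero hk
    have hpj : 0 < p ^ j := Nat.pow_pos (by omega)
    have hlt : p ^ j < n := by
      rw [hnd, Nat.succ_eq_add_one, pow_succ]
      nlinarith
    refine ⟨p ^ j, hpj, hlt, hne _ hlt.le, Or.inr ⟨⟨j, hnd, rfl⟩, ?_⟩⟩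
    · have he := hp.out.emultiplicity_choose_prime_pow_add_emultiplicity (n := j + 1)
        (k := p ^ j) (by rw [hnd, Nat.succ_eq_add_one] at hlt; exact hlt.le) (by positivity)
      have he2 : emultiplicity p (p ^ j) = j := by
        exact emultiplicity_pow_self hp.out.ne_zero hp.out.not_isUnit j
      rw [he2] at he
      have hfin : ¬ p ^ 2 ∣ Nat.choose (p ^ (j + 1)) (p ^ j) := by
        intro hdvd
        have h3 : (2 : ℕ∞) ≤ emultiplicity p (Nat.choose (p ^ (j + 1)) (p ^ j)) :=
          le_emultiplicity_of_pow_dvd hdvd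
        have h4 : ((2 : ℕ∞) + j) ≤ ((j + 1 : ℕ) : ℕ∞) := by
          rw [← he]
          gcongr
        have h5 : (2 : ℕ) + j ≤ j + 1 := by exact_mod_cast h4
        omega
      rw [norm_natCast, hnd, Nat.succ_eq_add_one]
      by_contra hlt2
      push Not at hlt2
      apply hfin
      have h6 : ‖((Nat.choose (p ^ (j + 1)) (p ^ j) : ℕ) : ℚ_[p])‖ ≤ (p : ℝ) ^ (-(2 : ℕ) : ℤ) := by
        have h7 := (Padic.norm_le_pow_iff_norm_lt_pow_add_one
          ((Nat.choose (p ^ (j + 1)) (p ^ j) : ℕ) : ℚ_[p]) (-2)).2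
        have : ((-(2 : ℕ) : ℤ)) = -2 := by norm_num
        rw [this]
        apply h7
        norm_num
        exact hlt2
      have h8 := (Padic.norm_int_le_pow_iff_dvd (p := p)
        ((Nat.choose (p ^ (j + 1)) (p ^ j) : ℕ) : ℤ) 2).1 (by
          rw [Int.cast_natCast]
          exact h6)
      exact_mod_cast h8
  · -- `n = p ^ k d`, `d ≥ 2`
    have hlt : p ^ k < n := by
      rw [hnd]
      nlinarith
    refine ⟨p ^ k, hpk, hlt, hne _ hlt.le, Or.inl ?_⟩
    rw [norm_natCast, hnd]
    have hnd2 : ¬ p ∣ Nat.choose (p ^ k * d) (p ^ k) := by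
      intro h
      apply hd
      have := choose_pow_mul p k d
      exact (Nat.modEq_zero_iff_dvd.1 (this.symm.trans (Nat.modEq_zero_iff_dvd.2 h)))
    have h1 : ‖(((Nat.choose (p ^ k * d) (p ^ k) : ℕ) : ℤ) : ℚ_[p])‖ ≤ 1 :=
      Padic.norm_int_le_one _
    have h2 : ¬ ‖(((Nat.choose (p ^ k * d) (p ^ k) : ℕ) : ℤ) : ℚ_[p])‖ < 1 := by
      rw [Padic.norm_intCast_lt_one_iff]
      exact_mod_cast hnd2
    rw [Int.cast_natCast] at h1 h2
    exact le_antisymm h1 (not_lt.1 h2)

/-- the exponent in the bound -/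
noncomputable def ex (n : ℕ) : ℝ := 2 - 2 / (p : ℝ) ^ (Nat.log p n)

theorem ex_mono {m n : ℕ} (h : m ≤ n) : ex p m ≤ ex p n := by
  unfold ex
  have hp1 : (1 : ℝ) ≤ p := by exact_mod_cast hp.out.pos
  have h1 : (p : ℝ) ^ (Nat.log p m) ≤ (p : ℝ) ^ (Nat.log p n) :=
    pow_le_pow_right₀ hp1 (Nat.log_mono_right h)
  have h0 : (0 : ℝ) < (p : ℝ) ^ (Nat.log p m) := by positivity
  have h2 : 2 / (p : ℝ) ^ (Nat.log p n) ≤ 2 / (p : ℝ) ^ (Nat.log p m) :=
    div_le_div_of_nonneg_left (by norm_num) h0 h1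
  linarith

theorem ex_nonneg (n : ℕ) : 0 ≤ ex p n := by
  unfold ex
  have hp1 : (1 : ℝ) ≤ p := by exact_mod_cast hp.out.pos
  have h1 : (1 : ℝ) ≤ (p : ℝ) ^ (Nat.log p n) := one_le_pow₀ hp1
  have : 2 / (p : ℝ) ^ (Nat.log p n) ≤ 2 := div_le_self (by norm_num) h1
  linarith

theorem ex_le_two (n : ℕ) : ex p n ≤ 2 := by
  unfold ex
  have hp1 : (0 : ℝ) < p := by exact_mod_cast hp.out.pos
  have : (0 : ℝ) ≤ 2 / (p : ℝ) ^ (Nat.log p n) := by positivity
  linarith

theorem ex_step (m j : ℕ) (h : m < p ^ (j + 1)) :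
    ex p m + 1 / ((p : ℝ) ^ (j + 1) - (p : ℝ) ^ j) ≤ ex p (p ^ (j + 1)) := by
  have hp2 : (2 : ℝ) ≤ p := by exact_mod_cast hp.out.two_le
  have hp0 : (0 : ℝ) < p := by linarith
  have h1 : ex p m ≤ 2 - 2 / (p : ℝ) ^ j := by
    unfold ex
    have hl : Nat.log p m ≤ j := by
      rcases Nat.eq_zero_or_pos m with h0 | h0
      · subst h0; simp
      · exact Nat.lt_succ_iff.1 (Nat.log_lt_of_lt_pow h0.ne' h)
    have h3 : (p : ℝ) ^ (Nat.log p m) ≤ (p : ℝ) ^ j := pow_le_pow_right₀ (by linarith) hl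
    have h4 : 2 / (p : ℝ) ^ j ≤ 2 / (p : ℝ) ^ (Nat.log p m) :=
      div_le_div_of_nonneg_left (by norm_num) (by positivity) h3
    linarith
  have h2 : ex p (p ^ (j + 1)) = 2 - 2 / (p : ℝ) ^ (j + 1) := by
    unfold ex
    rw [Nat.log_pow hp.out.one_lt]
  rw [h2]
  have hpj : (0 : ℝ) < (p : ℝ) ^ j := by positivity
  have h5 : 1 / ((p : ℝ) ^ (j + 1) - (p : ℝ) ^ j) ≤ 2 / (p : ℝ) ^ j - 2 / (p : ℝ) ^ (j + 1) := by
    have e1 : (p : ℝ) ^ (j + 1) - (p : ℝ) ^ j = (p : ℝ) ^ j * (p - 1) := by ring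
    have e2 : 2 / (p : ℝ) ^ j - 2 / (p : ℝ) ^ (j + 1) = 2 * (p - 1) / ((p : ℝ) ^ j * p) := by
      rw [pow_succ]
      field_simp
    rw [e1, e2, div_le_div_iff₀ (mul_pos hpj (by linarith)) (by positivity)]
    nlinarith [mul_nonneg hpj.le (by nlinarith : (0 : ℝ) ≤ 2 * (p - 1) * (p - 1) - p)]
  linarith

theorem ax_aux (E : IntermediateField ℚ_[p] (PadicAlgCl p)) :
    ∀ n : ℕ, ∀ α : PadicAlgCl p, (minpoly E α).natDegree = n → ∀ δ : ℝ,
    (∀ σ : PadicAlgCl p ≃ₐ[E] PadicAlgCl p, ‖σ α - α‖ ≤ δ) →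
    ∃ a : E, ‖α - a‖ ≤ (p : ℝ) ^ (ex p n) * δ := by
  have hp0 : 0 < p := hp.out.pos
  have hp2 : 2 ≤ p := hp.out.two_le
  have hp1 : (1 : ℝ) ≤ p := by exact_mod_cast hp0
  have hpR : (0 : ℝ) < p := by exact_mod_cast hp0
  intro n
  induction n using Nat.strong_induction_on with
  | _ n ih =>
    intro α hα δ hδ
    have hδ0 : 0 ≤ δ := (norm_nonneg _).trans (hδ AlgEquiv.refl)
    have hint : IsIntegral E α := (Algebra.IsAlgebraic.isAlgebraic (R := E) α).isIntegral
    have hn0 : 0 < n := by rw [← hα]; exact minpoly.natDegree_pos hint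
    rcases Nat.lt_or_ge n 2 with h2 | h2
    · have hn1 : n = 1 := by omega
      subst hn1
      obtain ⟨a, ha⟩ := minpoly.natDegree_eq_one_iff.1 hα
      refine ⟨a, ?_⟩
      have : (algebraMap E (PadicAlgCl p)) a = (a : PadicAlgCl p) := rfl
      rw [← ha, this, sub_self, norm_zero]
      positivity
    · obtain ⟨q, hq0, hqn, hC, hcase⟩ := exists_q p n h2
      set P : (PadicAlgCl p)[X] := (minpoly E α).map (algebraMap E (PadicAlgCl p)) with hP
      have hPm : P.Monic := (minpoly.monic hint).map _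
      have hPd : P.natDegree = n := by rw [hP, natDegree_map, hα]
      have hroots : ∀ x ∈ P.roots, ‖x - α‖ ≤ δ := by
        intro x hx
        have hx' : (aeval x) (minpoly E α) = 0 := by
          have := (mem_roots'.1 hx).2
          rw [IsRoot, hP, eval_map_algebraMap] at this
          exact this
        obtain ⟨σ, hσ⟩ := minpoly.exists_algEquiv_of_root' (K := E) (L := PadicAlgCl p)
          (hint.isAlgebraic) hx'
        rw [← hσ]
        exact hδ σ
      obtain ⟨β, hβ, hβn⟩ := exists_root δ hδ0 α P hPm hroots q (by rw [hPd]; exact hqn)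
        (by rw [hPd]; exact hC)
      rw [hPd] at hβn
      -- degree of `β`
      set H := hasseDeriv q (minpoly E α) with hH
      have hHm : hasseDeriv q P = H.map (algebraMap E (PadicAlgCl p)) := by
        rw [hH, hP]
        ext j
        simp [hasseDeriv_coeff]
      have hHβ : aeval β H = 0 := by
        rw [hHm, eval_map_algebraMap] at hβ
        exact hβ
      have hH0 : H ≠ 0 := by
        intro h0
        have : (hasseDeriv q P).coeff (n - q) = 0 := by rw [hHm, h0]; simp
        rw [hasseDeriv_coeff, Nat.sub_add_cancel hqn.le] at this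
        have h3 : P.coeff n = 1 := by rw [← hPd]; exact hPm
        rw [h3, mul_one] at this
        exact hC this
      have hdeg : (minpoly E β).natDegree ≤ n - q := by
        refine (natDegree_le_of_dvd (minpoly.dvd E β hHβ) hH0).trans ?_
        rw [← hα]
        exact natDegree_hasseDeriv_le _ _
      have hβint : IsIntegral E β := (Algebra.IsAlgebraic.isAlgebraic (R := E) β).isIntegral
      set m := (minpoly E β).natDegree with hm
      have hm0 : 0 < m := minpoly.natDegree_pos hβint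
      have hmn : m < n := by omega
      have hnq : 0 < n - q := by omega
      -- `β` is invariant up to `ρ`
      have key : ∀ ρ : ℝ, δ ≤ ρ → ‖β - α‖ ≤ ρ → ∃ a : E,
          ‖α - a‖ ≤ (p : ℝ) ^ (ex p m) * ρ := by
        intro ρ hρ1 hρ2
        have hρ0 : 0 ≤ ρ := hδ0.trans hρ1
        have hinv : ∀ σ : PadicAlgCl p ≃ₐ[E] PadicAlgCl p, ‖σ β - β‖ ≤ ρ := by
          intro σ
          have e : σ β - β = σ (β - α) + ((σ α - α) + (α - β)) := by
            rw [map_sub]; ring
          rw [e]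
          refine (IsUltrametricDist.norm_add_le_max _ _).trans (max_le ?_ ?_)
          · rw [norm_aut]; exact hρ2
          · refine (IsUltrametricDist.norm_add_le_max _ _).trans (max_le ((hδ σ).trans hρ1) ?_)
            rw [norm_sub_rev]; exact hρ2
        obtain ⟨a, ha⟩ := ih m hmn β hm.symm ρ hinv
        refine ⟨a, ?_⟩
        have hone : (1 : ℝ) ≤ (p : ℝ) ^ (ex p m) := Real.one_le_rpow hp1 (ex_nonneg p m)
        have e : α - (a : PadicAlgCl p) = (α - β) + (β - a) := by ring
        rw [e]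
        refine (IsUltrametricDist.norm_add_le_max _ _).trans (max_le ?_ ?_)
        · rw [norm_sub_rev]
          calc ‖β - α‖ ≤ 1 * ρ := by rw [one_mul]; exact hρ2
            _ ≤ _ := mul_le_mul_of_nonneg_right hone hρ0
        · exact ha
      rcases hcase with hc | ⟨⟨j, hj1, hj2⟩, hc2⟩
      · rw [hc, one_mul] at hβn
        have h1 : ‖β - α‖ ≤ δ := le_of_pow_le_pow_left₀ hnq.ne' hδ0 hβn
        obtain ⟨a, ha⟩ := key δ le_rfl h1
        refine ⟨a, ha.trans ?_⟩
        apply mul_le_mul_of_nonneg_right _ hδ0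
        exact Real.rpow_le_rpow_of_exponent_le hp1 (ex_mono p hmn.le)
      · set r : ℝ := ((n - q : ℕ) : ℝ) with hr
        have hr0 : 0 < r := by rw [hr]; exact_mod_cast hnq
        have hρ : ‖β - α‖ ≤ (p : ℝ) ^ (1 / r) * δ := by
          have h3 : (p : ℝ)⁻¹ * ‖β - α‖ ^ (n - q) ≤ δ ^ (n - q) :=
            (mul_le_mul_of_nonneg_right hc2 (by positivity)).trans hβn
          have h4 : ‖β - α‖ ^ (n - q) ≤ ((p : ℝ) ^ (1 / r) * δ) ^ (n - q) := by
            rw [mul_pow, ← Real.rpow_natCast ((p : ℝ) ^ (1 / r)), ← Real.rpow_mul hpR.le, ← hr,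
              one_div, inv_mul_cancel₀ hr0.ne', Real.rpow_one]
            calc ‖β - α‖ ^ (n - q) = p * ((p : ℝ)⁻¹ * ‖β - α‖ ^ (n - q)) := by
                  field_simp
              _ ≤ p * δ ^ (n - q) := mul_le_mul_of_nonneg_left h3 hpR.le
          exact le_of_pow_le_pow_left₀ hnq.ne' (by positivity) h4
        have hone : (1 : ℝ) ≤ (p : ℝ) ^ (1 / r) := Real.one_le_rpow hp1 (by positivity)
        obtain ⟨a, ha⟩ := key ((p : ℝ) ^ (1 / r) * δ)
          (by calc δ = 1 * δ := (one_mul _).symm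
                _ ≤ _ := mul_le_mul_of_nonneg_right hone hδ0) hρ
        refine ⟨a, ha.trans ?_⟩
        rw [← mul_assoc, ← Real.rpow_add hpR]
        apply mul_le_mul_of_nonneg_right _ hδ0
        apply Real.rpow_le_rpow_of_exponent_le hp1
        have h5 : r = (p : ℝ) ^ (j + 1) - (p : ℝ) ^ j := by
          rw [hr, Nat.cast_sub hqn.le, hj1, hj2]
          push_cast
          ring
        have h6 := ex_step p m j (by rw [← hj1]; exact hmn)
        rw [h5]
        rw [hj1]
        exact h6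

/-- **Ax's lemma** with the constant `p ^ 2`. -/
theorem ax_approx (E : IntermediateField ℚ_[p] (PadicAlgCl p)) (α : PadicAlgCl p) (δ : ℝ)
    (hδ : ∀ σ : PadicAlgCl p ≃ₐ[E] PadicAlgCl p, ‖σ α - α‖ ≤ δ) :
    ∃ a : E, ‖α - a‖ ≤ (p : ℝ) ^ 2 * δ := by
  have hp1 : (1 : ℝ) ≤ p := by exact_mod_cast hp.out.pos
  have hδ0 : 0 ≤ δ := (norm_nonneg _).trans (hδ AlgEquiv.refl)
  obtain ⟨a, ha⟩ := ax_aux p E _ α rfl δ hδ
  refine ⟨a, ha.trans ?_⟩
  apply mul_le_mul_of_nonneg_right _ hδ0
  rw [← Real.rpow_natCast]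
  apply Real.rpow_le_rpow_of_exponent_le hp1
  exact_mod_cast ex_le_two p _

end Pool.Agent.Helper35K9.Ax
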