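import Pool.Agent.Helper35K9.S8.Last
import Pool.Agent.Helper35K9.S8.Prim
import Pool.Agent.Helper26K9.QR.Fin

/-!
# The central values of the `L`-functions in the Beilinson–Bloch conjecture, for a positive proportion of
the quadratic twists of `X_0(49)` over `ℚ(√-7)`

Let `K = ℚ(√-7)`, `R = ℤ[ω]` its ring of integers, `ω = (1 + √-7) / 2`; the units of `R` are `1` and `-1`,
the class number is one and two is the product of the primes `ω` and `1 - ω`.  The curve
`E : y² = x³ - 35 x - 98` is the modular curve `X_0(49)`; it has complex multiplication by `R`, good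
reduction outside `√-7`, and its Hecke character over `K` is given by `ψ((α)) = (α / √-7) α`.  For
`D ∈ R`, squarefree, congruent to `1` modulo `8` and prime to `√-7`, let
`E_D : y² = x³ - 35 D² x - 98 D³` be the quadratic twist of `E` by `D`.  The primes `ω` and `1 - ω` split
in `K(√D)`, and the Hecke character of `E_D` is given by `ψ_D((p)) = (D / p) p`, where `p` is the
generator of the prime ideal that is a square modulo `√-7`, with the quadratic residue symbol `(D / p)`
(it is `0` for the `p` dividing `D`).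

For `X = E_D ^ N` the representation `H^(2m-1)(X)` of `Gal(Kbar / K)` is a direct sum of the characters
`ψ_D ^ a * conj ψ_D ^ b`, `a + b = 2 m - 1`, and the conjecture of Beilinson and Bloch says that
the rank of `CH^m(X)_hom` is the order of vanishing of `L(H^(2m-1)(X), s)` at `s = m`, which is the sum of
the orders of `L(ψ_D ^ a * conj ψ_D ^ b, s)` at `s = m`.

Let `c = ∏_{i ≥ 1} (1 - 2^(-i)) = 0.288788...`.  We prove that among the `D` as above, ordered by the norm
(a set of positive lower density in `R`),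

* for a proportion of at least `c` (as lower limit) the group `E_D(K)` is finite and
  `L(ψ_D ^ a * conj ψ_D ^ b, m) ≠ 0` for all `m ≥ 1`, `a + b = 2 m - 1`, with `|a - b| ≡ 1` modulo `4`;
  this is half of all pairs `(a, b)`, for all degrees `m`, and it contains both pairs with `m = 1`, so
  that the conjecture of Beilinson and Bloch holds for `E_D ^ N` and `m = 1`, with rank zero;
* for a proportion of at least `c / 2` the group `E_D(K)` is finite and
  `L(ψ_D ^ a * conj ψ_D ^ b, m) ≠ 0` for all `m ≥ 1` and all `a + b = 2 m - 1`; so the order of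
  `L(H^(2m-1)(E_D ^ N), s)` at `s = m` is zero for all `m` and `N`.

The proof: let `|a - b| = 2 e + 1`.  For a divisor `δ` of `D` the value at the centre of the
`L`-function of the character `ψ_δ ^ a * conj ψ_δ ^ b`, with the Euler factors at the primes of `D`
removed, is a finite sum of values of the Eisenstein–Kronecker series of weight `2 e + 1` at the points
of order `D` translated by a point of order `√-7`.  After the removal of the period the sum over all `δ`
is divisible by a power of the primes over two that grows with the number of the prime factors of `D`,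
and Möbius inversion gives a recursion, modulo a prime over two, for the normalized values over the
divisors of `D`.  It has the same shape as the expansion of the determinant of a matrix of quadratic
residue symbols `(p / q)` between the primes of `D`, bordered by the symbols of `√-7`.  For even `e` the
value is not zero if this matrix is nonsingular modulo two; for odd `e` there is one further condition,
an equation that involves the symbols of `ω` and `1 - ω` at the primes of `D`.  The proportion of the `D`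
with a nonsingular matrix is `c`, and one half of them satisfy the further condition: this is the method of
Heath-Brown and Smith (moments of the number of the elements of the kernel), refined from the class `1`
modulo `4` in the library to the class `1` modulo `8` and to the pairs `(kernel, further condition)`;
see `Pool.Agent.R426.QK` and `Pool.Agent.Helper26K9.QR`.  The finiteness of `E_D(K)` is taken from the
library (`MP_e996df_nt`, `TwoPartTwistsX49`).
-/

set_option autoImplicit false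

open Complex Filter

namespace Pool.Agent.Results.MP_b8021b_nt.DensitySqrtMinusSeven

/-- `ω = (1 + √-7) / 2` -/
noncomputable def omega : ℂ := (1 + Real.sqrt 7 * I) / 2

open Classical in
/-- The quadratic residue symbol `(α / p)` for a prime `p` of `R`: it is `0` if `p` divides `α`, `1` if
`α` is a nonzero square modulo `p`, and `-1` if `α` is not a square modulo `p`. -/
noncomputable def symbol {R : Subring ℂ} (p α : R) : ℤ :=
  if α ∈ Ideal.span {p} then 0 else if ∃ β : R, β * β - α ∈ Ideal.span {p} then 1 else -1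

/-- The primes `p` of `R` that are nonzero squares modulo `r = √-7`: one generator for each prime ideal
other than `(√-7)`, as the units of `R` are `1` and `-1`, and `-1` is not a square modulo `√-7`. -/
def NormalizedPrime {R : Subring ℂ} (r : R) : Type := {p : R // Prime p ∧ symbol r p = 1}

/-- `L` is entire and it is the Hecke `L`-function of `ψ_D ^ a * conj ψ_D ^ b`: the Euler product over
the prime ideals (the factor at `√-7` is `1`), in the half plane of absolute convergence; here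
`r = √-7`. -/
def IsLFunction {R : Subring ℂ} (r D : R) (a b : ℕ) (L : ℂ → ℂ) : Prop :=
  Differentiable ℂ L ∧ ∀ s : ℂ, ((a : ℝ) + b) / 2 + 1 < s.re →
    HasProd (fun p : NormalizedPrime r => (1 - (symbol p.1 D : ℂ) * (p.1 : ℂ) ^ a *
      (starRingEnd ℂ) (p.1 : ℂ) ^ b * ((normSq (p.1 : ℂ) : ℝ) : ℂ) ^ (-s))⁻¹) (L s)

/-- The squarefree `D`, congruent to `1` modulo `8` and prime to `r = √-7`, of norm at most `X`. -/
def Twists {R : Subring ℂ} (r : R) (X : ℝ) : Set R :=
  {D | Squarefree D ∧ (8 : R) ∣ D - 1 ∧ ¬ r ∣ D ∧ normSq (D : ℂ) ≤ X}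

/-- The elements of the field `K = ℚ(ω)`. -/
def InK (z : ℂ) : Prop := ∃ q₁ q₂ : ℚ, z = q₁ + q₂ * omega

/-- The curve `y² = x³ - 35 D² x - 98 D³` has only finitely many points over `K`. -/
def FinitelyManyPoints {R : Subring ℂ} (D : R) : Prop :=
  {P : ℂ × ℂ | InK P.1 ∧ InK P.2 ∧
    P.2 ^ 2 = P.1 ^ 3 - 35 * (D : ℂ) ^ 2 * P.1 - 98 * (D : ℂ) ^ 3}.Finite

/-- `L(ψ_D ^ a * conj ψ_D ^ b, s)` is entire and not zero at the centre `s = m`, `a + b = 2 m - 1`. -/
def Nonvanishing {R : Subring ℂ} (r D : R) (m a b : ℕ) : Prop :=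
  ∃ L : ℂ → ℂ, IsLFunction r D a b L ∧ L m ≠ 0

/-- `E_D(K)` is finite and `L(ψ_D ^ a * conj ψ_D ^ b, s)` does not vanish at `s = m` for all `m ≥ 1` and
all `a + b = 2 m - 1`. -/
def AllValues {R : Subring ℂ} (r D : R) : Prop :=
  FinitelyManyPoints D ∧ ∀ m a b : ℕ, 1 ≤ m → a + b = 2 * m - 1 → Nonvanishing r D m a b

/-- `E_D(K)` is finite and `L(ψ_D ^ a * conj ψ_D ^ b, s)` does not vanish at `s = m` for all `m ≥ 1` and
all `a + b = 2 m - 1` with `|a - b| ≡ 1 mod 4`.  For `m = 1` the condition on `a`, `b` is empty. -/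
def HalfOfTheValues {R : Subring ℂ} (r D : R) : Prop :=
  FinitelyManyPoints D ∧ ∀ m a b : ℕ, 1 ≤ m → a + b = 2 * m - 1 →
    ((a : ℤ) - b).natAbs % 4 = 1 → Nonvanishing r D m a b

section proof

open Pool.Agent.Y698 (RR al aR fR)
open Pool.Agent.Helper35K9.S8 (ClsE8 S_PRIM S_NS8 S_LOW8 S_C8 S_C8')
open Pool.Agent.Helper35K9.S8.Last (Tw Tw_fin NZ FP card_Tw props)
open Pool.Agent.R426.QK (nrm nrm_cast)

lemma om_eq : omega = al := by
  unfold omega al Pool.Agent.Y698.s7
  ring

lemma inK_eq (z : ℂ) : InK z ↔ Pool.Agent.Helper35K9.S8.Pts.InK z := by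
  unfold InK Pool.Agent.Helper35K9.S8.Pts.InK
  rw [om_eq]

lemma fp_eq (D : RR) : FinitelyManyPoints D ↔ FP D := by
  unfold FinitelyManyPoints FP
  simp only [inK_eq]

lemma nz_eq (D : RR) (m a b : ℕ) : Nonvanishing fR D m a b ↔ NZ D m a b := Iff.rfl

lemma normSq_nrm (D : RR) : normSq (D : ℂ) = (nrm D : ℝ) := by
  rw [Pool.Agent.Y698.normSq_coe, ← nrm_cast]
  norm_cast

lemma tw_eq {X : ℝ} (hX : 0 ≤ X) : Twists fR X = Tw ⌊X⌋₊ := by
  ext D
  unfold Twists Tw ClsE8
  rw [Set.mem_ofPred_eq, Set.mem_ofPred_eq, normSq_nrm, Nat.le_floor_iff hX]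
  tauto

theorem main_RR (hsup : Pool.Agent.Helper26K9.QR.S_SUP) (hprim : S_PRIM) (hns : S_NS8)
    (hlow : S_LOW8) (hC8 : S_C8) (hC8' : S_C8') :
    (288 / 1000 : ℝ) < ∏' i : ℕ, (1 - (1 / 2 : ℝ) ^ (i + 1)) ∧
    (∀ X : ℝ, (Twists fR X).Finite) ∧
    (∃ c : ℝ, 0 < c ∧ ∀ X : ℝ, 1 ≤ X → c * X ≤ ((Twists fR X).ncard : ℝ)) ∧
    (∀ ε : ℝ, 0 < ε → ∃ X₀ : ℝ, ∀ X : ℝ, X₀ ≤ X →
      ((∏' i : ℕ, (1 - (1 / 2 : ℝ) ^ (i + 1))) - ε) * ((Twists fR X).ncard : ℝ) ≤
        ({D ∈ Twists fR X | HalfOfTheValues fR D}.ncard : ℝ)) ∧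
    (∀ ε : ℝ, 0 < ε → ∃ X₀ : ℝ, ∀ X : ℝ, X₀ ≤ X →
      (1 / 2 * (∏' i : ℕ, (1 - (1 / 2 : ℝ) ^ (i + 1))) - ε) * ((Twists fR X).ncard : ℝ) ≤
        ({D ∈ Twists fR X | AllValues fR D}.ncard : ℝ)) := by
  classical
  have hc2 : (∏' i : ℕ, (1 - (1 / 2 : ℝ) ^ (i + 1))) = Pool.Agent.R426.QK.c2 := rfl
  have h01 : ∀ X : ℝ, 0 ≤ X ∨ X < 0 := fun X => le_or_gt 0 X
  rw [hc2]
  refine ⟨?_, fun X => ?_, ?_, fun ε hε => ?_, fun ε hε => ?_⟩
  · obtain ⟨-, -, -, h3, -⟩ := Pool.Agent.R426.QK.MOM.t_C2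
    norm_num at h3 ⊢
    exact h3
  · rcases h01 X with h | h
    · rw [tw_eq h]
      exact Tw_fin _
    · have : Twists fR X = ∅ := by
        ext D
        simp only [Set.mem_empty_iff_false, iff_false]
        rintro ⟨-, -, -, h4⟩
        exact absurd (h4.trans_lt h) (not_lt.mpr (normSq_nonneg _))
      rw [this]
      exact Set.finite_empty
  · obtain ⟨c, X₀, hc, h1⟩ := hlow
    refine ⟨min (c / 2) (1 / (X₀ + 1)), lt_min (by positivity) (by positivity), fun X hX => ?_⟩
    have hX0 : 0 ≤ X := by linarith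
    rw [tw_eq hX0, card_Tw hns]
    by_cases h2 : X₀ ≤ ⌊X⌋₊
    · have h3 := h1 _ h2
      have h4 : X ≤ 2 * (⌊X⌋₊ : ℝ) := by
        have h5 : (1 : ℝ) ≤ ⌊X⌋₊ := by exact_mod_cast Nat.le_floor (by simpa using hX)
        have h6 := Nat.lt_floor_add_one X
        linarith
      calc min (c / 2) (1 / (X₀ + 1)) * X ≤ c / 2 * X :=
            mul_le_mul_of_nonneg_right (min_le_left _ _) hX0
        _ ≤ c / 2 * (2 * (⌊X⌋₊ : ℝ)) := mul_le_mul_of_nonneg_left h4 (by positivity)
        _ = c * (⌊X⌋₊ : ℝ) := by ring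
        _ ≤ _ := h3
    · have h3 : ⌊X⌋₊ < X₀ := not_le.mp h2
      have h4 : X < X₀ := (Nat.floor_lt hX0).mp h3
      have h5 : 1 ≤ (Pool.Agent.Helper35K9.S8.SS8 ⌊X⌋₊).card := by
        rw [← card_Tw hns, Nat.one_le_iff_ne_zero, ← Nat.pos_iff_ne_zero,
          Set.ncard_pos (Tw_fin _)]
        refine ⟨1, ⟨squarefree_one, by simp, ?_⟩, ?_⟩
        · exact fun h => Pool.Agent.R426.QK.prime_fR.not_isUnit (isUnit_of_dvd_one h)
        · rw [Pool.Agent.R426.QK.nrm_one]
          exact Nat.le_floor (by simpa using hX)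
      have h6 : (1 : ℝ) ≤ ((Pool.Agent.Helper35K9.S8.SS8 ⌊X⌋₊).card : ℝ) := by exact_mod_cast h5
      have h7 : (0 : ℝ) < X₀ + 1 := by positivity
      calc min (c / 2) (1 / (X₀ + 1)) * X ≤ 1 / (X₀ + 1) * X :=
            mul_le_mul_of_nonneg_right (min_le_right _ _) hX0
        _ ≤ 1 := by
            rw [div_mul_eq_mul_div, one_mul, div_le_one h7]
            linarith
        _ ≤ _ := h6
  · obtain ⟨X₀, h1⟩ := (props hsup hprim hns hlow hC8 hC8' hε).1
    refine ⟨max X₀ 0, fun X hX => ?_⟩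
    have hX0 : 0 ≤ X := (le_max_right _ _).trans hX
    have h2 := h1 ⌊X⌋₊ (Nat.le_floor ((le_max_left _ _).trans hX))
    rw [tw_eq hX0]
    have h3 : {D ∈ Tw ⌊X⌋₊ | HalfOfTheValues fR D} =
        {D ∈ Tw ⌊X⌋₊ | FP D ∧ ∀ m a b : ℕ, 1 ≤ m → a + b = 2 * m - 1 →
          ((a : ℤ) - b).natAbs % 4 = 1 → NZ D m a b} := by
      ext D
      unfold HalfOfTheValues
      simp only [Set.mem_ofPred_eq, fp_eq, nz_eq]
    rw [h3]
    exact h2
  · obtain ⟨X₀, h1⟩ := (props hsup hprim hns hlow hC8 hC8' hε).2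
    refine ⟨max X₀ 0, fun X hX => ?_⟩
    have hX0 : 0 ≤ X := (le_max_right _ _).trans hX
    have h2 := h1 ⌊X⌋₊ (Nat.le_floor ((le_max_left _ _).trans hX))
    rw [tw_eq hX0]
    have h3 : {D ∈ Tw ⌊X⌋₊ | AllValues fR D} =
        {D ∈ Tw ⌊X⌋₊ | FP D ∧ ∀ m a b : ℕ, 1 ≤ m → a + b = 2 * m - 1 → NZ D m a b} := by
      ext D
      unfold AllValues
      simp only [Set.mem_ofPred_eq, fp_eq, nz_eq]
    rw [h3, one_div, inv_mul_eq_div]
    exact h2

end proof

/-- **Theorem.**  Let `R = ℤ[ω]` be the ring of integers of `ℚ(√-7)`, `r = √-7` and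
`c = ∏_{i ≥ 1} (1 - 2^(-i)) > 0.288`.  There are finitely many, and at least a constant times `X`,
squarefree `D ≡ 1` modulo `8`, prime to `√-7`, of norm at most `X`.  For a proportion of at least `c - ε`
of them, for every `ε > 0` and all large `X`, the group `E_D(K)` is finite and
`L(ψ_D ^ a * conj ψ_D ^ b, m) ≠ 0` for all `m ≥ 1`, `a + b = 2 m - 1`, `|a - b| ≡ 1` modulo `4`; for a
proportion of at least `c / 2 - ε` this is true without the last condition. -/
theorem result (R : Subring ℂ) (hR : ∀ z : ℂ, z ∈ R ↔ ∃ x y : ℤ, z = x + y * omega)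
    (r : R) (hr : (r : ℂ) = Real.sqrt 7 * I) :
    (288 / 1000 : ℝ) < ∏' i : ℕ, (1 - (1 / 2 : ℝ) ^ (i + 1)) ∧
    (∀ X : ℝ, (Twists r X).Finite) ∧
    (∃ c : ℝ, 0 < c ∧ ∀ X : ℝ, 1 ≤ X → c * X ≤ ((Twists r X).ncard : ℝ)) ∧
    (∀ ε : ℝ, 0 < ε → ∃ X₀ : ℝ, ∀ X : ℝ, X₀ ≤ X →
      ((∏' i : ℕ, (1 - (1 / 2 : ℝ) ^ (i + 1))) - ε) * ((Twists r X).ncard : ℝ) ≤
        ({D ∈ Twists r X | HalfOfTheValues r D}.ncard : ℝ)) ∧
    (∀ ε : ℝ, 0 < ε → ∃ X₀ : ℝ, ∀ X : ℝ, X₀ ≤ X →
      (1 / 2 * (∏' i : ℕ, (1 - (1 / 2 : ℝ) ^ (i + 1))) - ε) * ((Twists r X).ncard : ℝ) ≤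
        ({D ∈ Twists r X | AllValues r D}.ncard : ℝ)) := by
  have hRR : R = Pool.Agent.Y698.RR := by
    ext z
    rw [hR, om_eq]
    exact (Pool.Agent.Y698.mem_RR z).symm
  subst hRR
  have hra : r = Pool.Agent.Y698.fR := by
    refine Subtype.ext ?_
    have h1 : ((Pool.Agent.Y698.fR : Pool.Agent.Y698.RR) : ℂ) = 2 * Pool.Agent.Y698.al - 1 := rfl
    rw [hr, h1, ← om_eq]
    unfold omega
    ring
  subst hra
  exact main_RR Pool.Agent.Helper26K9.QR.sup Pool.Agent.Helper35K9.S8.prim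
    Pool.Agent.Helper26K9.QR.ns8 Pool.Agent.Helper26K9.QR.low8 Pool.Agent.Helper26K9.QR.c8
    Pool.Agent.Helper26K9.QR.c8'

end Pool.Agent.Results.MP_b8021b_nt.DensitySqrtMinusSeven
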