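import Pool.Agent.Helper35K9.S7.Fin
import Pool.Agent.W287.HK.Basic
import Pool.Agent.W571.HK.Cls
import Pool.Agent.W53.HK.Fp
import Pool.Agent.W366.HK.Fpr
import Pool.Agent.W585.HK.LAT
import Pool.Agent.W692.HK.Ker
import Pool.Agent.W584.HK.CNT
import Pool.Agent.W856.HK.Dec
import Pool.Agent.W636.HK.Gauss
import Pool.Agent.W348.HK.Pois

/-!
# Nonvanishing of the `L`-function in the Beilinson–Bloch conjecture, in every degree, for the curves
with complex multiplication by `(1 + √-7) / 2`

Let `K = ℚ(√-7)`, `R = ℤ[ω]` its ring of integers, `ω = (1 + √-7) / 2`, and `f = (1 - ω)²`, an element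
of norm four; two is the product of the primes `ω` and `1 - ω`.  Every ideal of `R` prime to `1 - ω` has
exactly one generator congruent to `1` modulo `f`, as the only units are `1` and `-1`.  The elliptic
curve `E : y² = x (x + 1) (x + ω⁴)` over `K` (the twist by `-√-7` of the modular curve `X_0(49)`) has
complex multiplication by `R`, and its Hecke character `ψ` is given by `ψ((α)) = α` for `α ≡ 1` modulo
`f`.  For a finite set `S` of primes of `R` congruent to `1` modulo `4` let `D = ∏ p ∈ S, p` and let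
`E_S : D y² = x (x + 1) (x + ω⁴)` be the quadratic twist by `D`.  As `D ≡ 1` modulo `4` the twisting
character is not ramified at the primes over two and by the reciprocity law its value at `(α)` is the
product `(α / D)` of the quadratic residue symbols `(α / p)`, `p ∈ S`; so the Hecke character of `E_S`
is given by `ψ_S((α)) = (α / D) α` for `α ≡ 1` modulo `f`.

For `X = E_S ^ N` the representation `H^(2k-1)(X)` of `Gal(Kbar / K)` is a direct sum of the characters
`ψ_S ^ a * conj ψ_S ^ b`, `a + b = 2 k - 1`, and for products of such varieties (for several sets `S`)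
the same is true up to the characters of mixed products.

We call `S` admissible if it is empty or if

1. there is no subset `V` of `S`, not empty and not equal to `S`, with `∏ q ∈ S \ V, (p / q) = 1` for
   all `p ∈ V` and `∏ q ∈ V, (p / q) = 1` for all `p ∈ S \ V`,
2. there is no subset `V` of `S` with `∏ q ∈ S \ V, (p / q) = sign p` for all `p ∈ V` and
   `∏ q ∈ V, (p / q) = sign p` for all `p ∈ S \ V`, where `sign (1 + 4 (x + y ω)) = (-1) ^ (x + y)`,
3. `∏ q ∈ S, (ω / q) = -1`.

By the reciprocity law the first condition says that the graph on `S`, in which two primes are joined if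
they are not squares modulo each other, has an odd number of spanning trees, and then the other two say
that `D ≡ 5` modulo `8`.

Theorem: for admissible `S` the function `L(ψ_S ^ a * conj ψ_S ^ b, s)` does not vanish at the centre
`s = k`, for all `k ≥ 1` and all `a + b = 2 k - 1`.  So `L(H^(2k-1)(X / K), s)` is not zero at `s = k`
for every `k ≥ 1` and `X = E_S ^ N`: the Beilinson–Bloch conjecture predicts that all the groups
`CH^k(X)_hom` are torsion.

The proof gives the exact valuation of the algebraic part of the central values at the primes over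
`ω`.
-/

set_option autoImplicit false

open Complex IsDedekindDomain

namespace Pool.Agent.Helper35K9.EveryDegreeSqrtMinusSeven

/-- `ω = (1 + √-7) / 2` -/
noncomputable def omega : ℂ := (1 + Real.sqrt 7 * I) / 2

/-- The norm `N(J)` of an ideal (`0` for the zero ideal, whose residue ring is infinite). -/
noncomputable def norm {R : Subring ℂ} (J : Ideal R) : ℝ := (Nat.card (R ⧸ J) : ℝ)

open Classical in
/-- The quadratic residue symbol `(α / p)` for a prime `p` of `R`: it is `0` if `p` divides `α`, `1` if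
`α` is a nonzero square modulo `p`, and `-1` if `α` is not a square modulo `p`. -/
noncomputable def symbol {R : Subring ℂ} (p α : R) : ℤ :=
  if α ∈ Ideal.span {p} then 0 else if ∃ β : R, β * β - α ∈ Ideal.span {p} then 1 else -1

open Classical in
/-- For `α = 1 + 4 (x + y ω)` the sign is `(-1) ^ (x + y)`. -/
noncomputable def sign {R : Subring ℂ} (α : R) : ℤ :=
  if ∃ x y : ℤ, Even (x + y) ∧ (α : ℂ) = 1 + 4 * (x + y * omega) then 1 else -1

/-- `ψ`, a function on the ideals of `R`, is the Hecke character of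
`E_S : (∏ p ∈ S, p) y² = x (x + 1) (x + ω⁴)`; here `f = (1 - ω)²`. -/
def IsHeckeCharacter {R : Subring ℂ} (f : R) (S : Finset R) (ψ : Ideal R → ℂ) : Prop :=
  (∀ I J : Ideal R, ψ (I * J) = ψ I * ψ J) ∧
  (∀ α : R, α - 1 ∈ Ideal.span {f} →
    ψ (Ideal.span {α}) = (∏ p ∈ S, symbol p α : ℤ) * α) ∧
  ∀ J : Ideal R, (¬ ∃ α : R, α - 1 ∈ Ideal.span {f} ∧ J = Ideal.span {α}) → ψ J = 0

open Classical in
/-- The finite set `S` of primes congruent to `1` modulo `4` is admissible: it is empty or it satisfies
the three conditions described above; here `w` is the element `ω` of `R`. -/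
def IsAdmissible {R : Subring ℂ} (w : R) (S : Finset R) : Prop :=
  (∀ p ∈ S, Prime p ∧ p - 1 ∈ Ideal.span {(4 : R)}) ∧
  (S.Nonempty →
    (∀ V ⊆ S, V ≠ ∅ → V ≠ S → (∃ p ∈ V, ∏ q ∈ S \ V, symbol q p = -1) ∨
      (∃ p ∈ S \ V, ∏ q ∈ V, symbol q p = -1)) ∧
    (∀ V ⊆ S, (∃ p ∈ V, ∏ q ∈ S \ V, symbol q p ≠ sign p) ∨
      (∃ p ∈ S \ V, ∏ q ∈ V, symbol q p ≠ sign p)) ∧
    ∏ q ∈ S, symbol q w = -1)

/-- **Main theorem.** Let `R = ℤ[ω]`, `w = ω`, `f = (1 - ω)²` and let `S 1, ..., S n` be finite sets
of primes that are admissible.  Then the Hecke characters `ψ j` of the elliptic curves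
`(∏ p ∈ S j, p) y² = x (x + 1) (x + ω⁴)` exist, and for all `k ≥ 1` and all `a j`, `b j` with
`a j + b j = 2 k - 1` the `L`-function of the direct sum of the `ψ j ^ a j * conj (ψ j) ^ b j` extends
to an entire function that is not zero at the centre `s = k`. -/
theorem result (R : Subring ℂ) (hR : ∀ z : ℂ, z ∈ R ↔ ∃ x y : ℤ, z = x + y * omega)
    (w : R) (hw : (w : ℂ) = omega) (n : ℕ) (S : Fin n → Finset R)
    (hS : ∀ j, IsAdmissible w (S j)) :
    ∃ ψ : Fin n → Ideal R → ℂ, (∀ j, IsHeckeCharacter ((1 - w) ^ 2) (S j) (ψ j)) ∧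
      ∀ (k : ℕ) (a b : Fin n → ℕ), 1 ≤ k → (∀ j, a j + b j = 2 * k - 1) →
        ∃ L : ℂ → ℂ, Differentiable ℂ L ∧
          (∀ s : ℂ, (k : ℝ) + 1 / 2 < s.re → HasProd (fun P : HeightOneSpectrum R =>
            ∏ j, (1 - ψ j P.asIdeal ^ a j * (starRingEnd ℂ) (ψ j P.asIdeal) ^ b j *
              (norm P.asIdeal : ℂ) ^ (-s))⁻¹) (L s)) ∧
          L k ≠ 0 := by
  classical
  have hbasic := Pool.Agent.W287.HK.h_basic
  have hcls := Pool.Agent.W571.HK.h_cls hbasic
  have hfp := Pool.Agent.W53.HK.h_fp hbasic hcls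
  have hfpr := Pool.Agent.W366.HK.h_fpr hbasic hcls
  have hlat := Pool.Agent.W585.HK.h_lat hbasic
  have hker := Pool.Agent.W692.HK.h_ker hbasic hcls hfpr
  have hcnt := Pool.Agent.W584.HK.h_cnt hbasic hcls hfpr hlat hker
  have hdec := Pool.Agent.W856.HK.h_dec hbasic
  have hgauss := Pool.Agent.W636.HK.h_gauss hbasic hfp
  have hpois := Pool.Agent.W348.HK.h_pois hbasic
  have htheta := Pool.Agent.TH936.HK.h_theta hbasic hfp hdec hgauss hpois hcnt
  have hafe := Pool.Agent.TH936.HK.h_afe hbasic hfp hcnt hgauss htheta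
  have hom : omega = Pool.Agent.Y698.al := by
    unfold omega Pool.Agent.Y698.al Pool.Agent.Y698.s7
    ring
  have hRR : R = Pool.Agent.Y698.RR := by
    ext z
    rw [hR, hom]
    exact (Pool.Agent.Y698.mem_RR z).symm
  subst hRR
  have hwa : w = Pool.Agent.Y698.aR := Subtype.ext (by rw [hw, hom, Pool.Agent.Y698.aR_coe])
  subst hwa
  have hpr : ∀ j, ∀ p ∈ S j, Prime p ∧ Pool.Agent.Helper35K9.S7.P4 p := by
    intro j p hp
    obtain ⟨h1, h2⟩ := (hS j).1 p hp
    refine ⟨h1, ?_⟩
    rw [Ideal.mem_span_singleton'] at h2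
    obtain ⟨d, hd⟩ := h2
    exact ⟨d, by linear_combination -hd⟩
  have hsym : ∀ p α : Pool.Agent.Y698.RR, symbol p α = Pool.Agent.Y690.NV.qs p α := fun p α => rfl
  have hsign : ∀ α : Pool.Agent.Y698.RR, sign α = Pool.Agent.Helper35K9.S7.V.sg α := by
    intro α
    unfold sign Pool.Agent.Helper35K9.S7.V.sg
    rw [hom]
  have hadm : ∀ j, Pool.Agent.Helper35K9.S7.V.Adm (S j) := by
    intro j
    have h1 := (hS j).2
    simp only [hsign, hsym] at h1
    rcases (S j).eq_empty_or_nonempty with he | hne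
    · refine ⟨hpr j, fun h2 => ?_⟩
      rw [he] at h2
      exact absurd h2 Finset.not_nonempty_empty
    · obtain ⟨a1, a2, a3⟩ := h1 hne
      exact Pool.Agent.Helper35K9.S7.V.adm_of hbasic (hpr j) a1 (fun _ => a2) fun _ => a3
  refine ⟨fun j => Pool.Agent.Helper35K9.S7.tw 1 (S j), fun j => ⟨?_, fun α hα => ?_,
    fun J hJ => ?_⟩, fun k a b hk hab => ?_⟩
  · exact (Pool.Agent.Helper35K9.S7.V.tw_main hbasic hfp hcnt hdec hafe (hadm j) 0).1.mul
  · have h := Pool.Agent.Helper35K9.S7.tw_gen 1 (S j) hα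
    rw [pow_one] at h
    exact h
  · exact Pool.Agent.Helper35K9.S7.tw_zero 1 (S j) hJ
  · exact Pool.Agent.Helper35K9.S7.V.family hbasic hfp hcnt hdec hafe n hadm k hk a b hab

end Pool.Agent.Helper35K9.EveryDegreeSqrtMinusSeven
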